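import Mathlib

/-!
# Leading coefficients of the Airy moment polynomials
-/

open Polynomial

namespace Pool.Agent.Results.MP_c1403d_pr.SinhSeries

/-! ### Definitions -/

/-- The algebra `ℚ[z, a, a⁻¹, b]`: the monomial `z^j a^i b^k` is indexed by `(j, i, k)`. -/
abbrev A : Type := AddMonoidAlgebra ℚ (ℕ × ℤ × ℕ)

/-- The monomial `z^j a^i b^k`. -/
noncomputable def mono (j : ℕ) (i : ℤ) (k : ℕ) : A := AddMonoidAlgebra.single (j, i, k) 1

/-- `D(z^j a^i b^k) = j z^{j-1} a^i b^k + i z^j a^{i-1} b^{k+1} + k z^{j+1} a^{i+1} b^{k-1}`. -/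
noncomputable def Dmono (m : ℕ × ℤ × ℕ) : A :=
  (m.1 : ℚ) • mono (m.1 - 1) m.2.1 m.2.2 + (m.2.1 : ℚ) • mono m.1 (m.2.1 - 1) (m.2.2 + 1) +
    (m.2.2 : ℚ) • mono (m.1 + 1) (m.2.1 + 1) (m.2.2 - 1)

/-- The derivation `D` of `ℚ[z, a, a⁻¹, b]` with `Dz = 1`, `Da = b`, `Db = za`. -/
noncomputable def D (f : A) : A := f.coeff.sum fun m q => q • Dmono m

/-- The reduction `R[j, k, l]`, as a combination of the symbols `[j', k', l']`. -/
noncomputable def R : ℕ → ℕ → ℕ → (ℕ × ℕ × ℕ →₀ ℚ)
  | j, 0, l => Finsupp.single (j, 0, l) 1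
  | j, 1, l => ((j : ℚ) / ((l : ℚ) - 1)) • R (j - 1) 0 (l - 1)
  | j, k + 2, l => ((j : ℚ) / ((l : ℚ) - 1)) • R (j - 1) (k + 1) (l - 1) +
      (((k : ℚ) + 1) / ((l : ℚ) - 1)) • R (j + 1) k (l - 2)

/-- The linear map `z^j b^k a^{-(k+2)} ↦ R[j, k, k+2]`. -/
noncomputable def reduce (f : A) : ℕ × ℕ × ℕ →₀ ℚ :=
  f.coeff.sum fun m q => q • R m.1 m.2.2 (m.2.2 + 2)

/-- The coefficient `b_{nj}` of `[j, 0, 2]` in the reduction of `a⁻¹ Dⁿ(a⁻¹)`. -/
noncomputable def bcoef (n j : ℕ) : ℚ := reduce (mono 0 (-1) 0 * D^[n] (mono 0 (-1) 0)) (j, 0, 2)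

/-! ### The operator on polynomials -/

/-- the operator `P ↦ (1 - u²) P' - u P` -/
noncomputable def T (P : ℚ[X]) : ℚ[X] := (1 - X ^ 2) * derivative P - X * P

/-- the polynomials `F_n` -/
noncomputable def F (n : ℕ) : ℚ[X] := T^[n] 1

theorem F_succ (n : ℕ) : F (n + 1) = T (F n) := Function.iterate_succ_apply' _ _ _

/-- weights: `½ ∫_{-1}^1 u^k du` -/
def wt (k : ℕ) : ℚ := if Even k then 1 / ((k : ℚ) + 1) else 0

/-- the functional `P ↦ ½ ∫_{-1}^1 P` -/
noncomputable def II : ℚ[X] →ₗ[ℚ] ℚ := Polynomial.lsum fun k => (wt k) • LinearMap.id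

theorem II_monomial (k : ℕ) (q : ℚ) : II (monomial k q) = wt k * q := by
  simp [II, Polynomial.lsum_apply, Polynomial.sum_monomial_index]

theorem II_X_pow (k : ℕ) : II (X ^ k) = wt k := by
  rw [← Polynomial.monomial_one_right_eq_X_pow, II_monomial, mul_one]

theorem T_add (P Q : ℚ[X]) : T (P + Q) = T P + T Q := by
  unfold T; rw [derivative_add]; ring

theorem T_C_mul (q : ℚ) (P : ℚ[X]) : T (C q * P) = C q * T P := by
  unfold T; rw [derivative_C_mul]; ring

theorem T_smul (q : ℚ) (P : ℚ[X]) : T (q • P) = q • T P := by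
  rw [smul_eq_C_mul, T_C_mul, smul_eq_C_mul]

theorem T_X_pow (k : ℕ) : T (X ^ k) = (k : ℚ[X]) * X ^ (k - 1) - ((k : ℚ[X]) + 1) * X ^ (k + 1) := by
  unfold T
  rw [derivative_X_pow]
  rcases Nat.eq_zero_or_pos k with h | h
  · subst h; simp
  · obtain ⟨j, rfl⟩ : ∃ j, k = j + 1 := ⟨k - 1, by omega⟩
    simp only [Nat.add_sub_cancel, Nat.cast_add, Nat.cast_one, map_add, map_natCast, map_one]
    ring

theorem II_T_X_pow (k : ℕ) : II (T (X ^ k)) = II (X * X ^ k) := by
  have h1 : (k : ℚ[X]) * X ^ (k - 1) = (k : ℚ) • (X ^ (k - 1) : ℚ[X]) := by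
    rw [smul_eq_C_mul, map_natCast]
  have h2 : ((k : ℚ[X]) + 1) * X ^ (k + 1) = ((k : ℚ) + 1) • (X ^ (k + 1) : ℚ[X]) := by
    rw [smul_eq_C_mul, map_add, map_natCast, map_one]
  rw [T_X_pow, h1, h2, map_sub, map_smul, map_smul, ← pow_succ', II_X_pow, II_X_pow]
  unfold wt
  rcases Nat.even_or_odd k with hk | hk
  · have e1 : ¬ Even (k + 1) := by rw [Nat.even_add_one]; exact fun h => h hk
    rw [if_neg e1]
    rcases Nat.eq_zero_or_pos k with h | h
    · subst h; simp
    · have e2 : ¬ Even (k - 1) := by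
        intro h3
        obtain ⟨j, rfl⟩ : ∃ j, k = j + 1 := ⟨k - 1, by omega⟩
        rw [Nat.add_sub_cancel] at h3
        exact (Nat.even_add_one.1 hk) h3
      rw [if_neg e2]
      simp
  · obtain ⟨j, rfl⟩ : ∃ j, k = j + 1 := ⟨k - 1, by have := hk.pos; omega⟩
    have e1 : Even (j + 1 + 1) := by
      rw [Nat.even_add_one]; exact Nat.not_even_iff_odd.2 hk
    have e2 : Even j := by
      by_contra h
      exact (Nat.not_even_iff_odd.2 hk) (Nat.even_add_one.2 h)
    rw [Nat.add_sub_cancel, if_pos e1, if_pos e2]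
    push_cast
    simp only [smul_eq_mul]
    have h3 : ((j : ℚ) + 1) ≠ 0 := by positivity
    have h4 : ((j : ℚ) + 1 + 1 + 1) ≠ 0 := by positivity
    field_simp
    ring

theorem II_T (P : ℚ[X]) : II (T P) = II (X * P) := by
  induction P using Polynomial.induction_on' with
  | add P Q hP hQ => rw [T_add, map_add, hP, hQ, mul_add, map_add]
  | monomial n a =>
    rw [← C_mul_X_pow_eq_monomial, T_C_mul, ← mul_assoc, mul_comm X (C a), mul_assoc,
      ← smul_eq_C_mul, ← smul_eq_C_mul, map_smul, map_smul, II_T_X_pow]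

/-! ### Generating functions -/

open PowerSeries in
/-- `cosh` with coefficients in `S` -/
noncomputable def chS (S : Type) [CommRing S] [Algebra ℚ S] : PowerSeries S :=
  PowerSeries.mk fun n => if Even n then algebraMap ℚ S (1 / (n.factorial : ℚ)) else 0

/-- `sinh` with coefficients in `S` -/
noncomputable def shS (S : Type) [CommRing S] [Algebra ℚ S] : PowerSeries S :=
  PowerSeries.mk fun n => if Even n then 0 else algebraMap ℚ S (1 / (n.factorial : ℚ))

theorem fact_succ_inv (n : ℕ) : (1 / ((n + 1).factorial : ℚ)) * ((n : ℚ) + 1) =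
    1 / (n.factorial : ℚ) := by
  rw [Nat.factorial_succ]
  push_cast
  have : (n.factorial : ℚ) ≠ 0 := by exact_mod_cast n.factorial_ne_zero
  field_simp

theorem d_chS (S : Type) [CommRing S] [Algebra ℚ S] :
    PowerSeries.derivative S (chS S) = shS S := by
  ext n
  rw [PowerSeries.coeff_derivative]
  simp only [chS, shS, PowerSeries.coeff_mk]
  by_cases h : Even n
  · have : ¬ Even (n + 1) := by rw [Nat.even_add_one]; exact fun h' => h' h
    simp [h, this]
  · have h' : Even (n + 1) := Nat.even_add_one.2 h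
    rw [if_pos h', if_neg h]
    have e : ((n : S) + 1) = algebraMap ℚ S ((n : ℚ) + 1) := by simp
    rw [e, ← map_mul, fact_succ_inv]

theorem d_shS (S : Type) [CommRing S] [Algebra ℚ S] :
    PowerSeries.derivative S (shS S) = chS S := by
  ext n
  rw [PowerSeries.coeff_derivative]
  simp only [chS, shS, PowerSeries.coeff_mk]
  by_cases h : Even n
  · have : ¬ Even (n + 1) := by rw [Nat.even_add_one]; exact fun h' => h' h
    rw [if_pos h, if_neg this]
    have e : ((n : S) + 1) = algebraMap ℚ S ((n : ℚ) + 1) := by simp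
    rw [e, ← map_mul, fact_succ_inv]
  · have h' : Even (n + 1) := Nat.even_add_one.2 h
    simp [h, h']

/-- coefficientwise derivative in `u` -/
noncomputable def du (f : PowerSeries ℚ[X]) : PowerSeries ℚ[X] :=
  PowerSeries.mk fun n => derivative (PowerSeries.coeff n f)

theorem du_mul (f g : PowerSeries ℚ[X]) : du (f * g) = du f * g + f * du g := by
  ext1 n
  simp only [du, PowerSeries.coeff_mk, map_add, PowerSeries.coeff_mul, derivative_sum,
    derivative_mul]
  rw [← Finset.sum_add_distrib]

theorem du_add (f g : PowerSeries ℚ[X]) : du (f + g) = du f + du g := by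
  ext1 n
  simp only [du, PowerSeries.coeff_mk, map_add]

/-- the exponential generating function of the `F_n` -/
noncomputable def G : PowerSeries ℚ[X] :=
  PowerSeries.mk fun n => C (1 / (n.factorial : ℚ)) * F n

theorem d_G : PowerSeries.derivative ℚ[X] G =
    PowerSeries.C (1 - X ^ 2) * du G - PowerSeries.C X * G := by
  ext1 n
  rw [PowerSeries.coeff_derivative, map_sub, PowerSeries.coeff_C_mul, PowerSeries.coeff_C_mul]
  simp only [G, du, PowerSeries.coeff_mk]
  have e : ((n : ℚ[X]) + 1) = C ((n : ℚ) + 1) := by simp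
  rw [F_succ, e, mul_right_comm, ← C_mul, fact_succ_inv, derivative_C_mul]
  unfold T
  ring

/-- the product `(cosh t + u sinh t) G` -/
noncomputable def H : PowerSeries ℚ[X] := (chS ℚ[X] + PowerSeries.C X * shS ℚ[X]) * G

theorem du_ch : du (chS ℚ[X]) = 0 := by
  ext1 n
  simp only [du, chS, PowerSeries.coeff_mk, map_zero]
  split_ifs
  · rw [← Polynomial.C_eq_algebraMap, derivative_C]
  · simp

theorem du_sh : du (shS ℚ[X]) = 0 := by
  ext1 n
  simp only [du, shS, PowerSeries.coeff_mk, map_zero]
  split_ifs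
  · simp
  · rw [← Polynomial.C_eq_algebraMap, derivative_C]

theorem du_CX : du (PowerSeries.C (X : ℚ[X])) = 1 := by
  ext1 n
  simp only [du, PowerSeries.coeff_mk, PowerSeries.coeff_C, PowerSeries.coeff_one]
  split_ifs <;> simp

theorem d_H : PowerSeries.derivative ℚ[X] H = PowerSeries.C (1 - X ^ 2) * du H := by
  unfold H
  rw [du_mul, du_add, du_mul, du_ch, du_sh, du_CX]
  simp only [Derivation.leibniz, map_add, smul_eq_mul, d_chS, d_shS, PowerSeries.derivative_C, d_G]
  have e : (PowerSeries.C (1 - X ^ 2 : ℚ[X])) = 1 - PowerSeries.C X ^ 2 := by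
    rw [map_sub, map_one, map_pow]
  rw [e]
  ring

theorem H_eq_one : H = 1 := by
  have h0 : PowerSeries.coeff 0 H = 1 := by
    simp [H, chS, shS, G, F]
  have hs : ∀ n, PowerSeries.coeff (n + 1) H = 0 := by
    intro n
    induction n with
    | zero =>
      have h := congrArg (PowerSeries.coeff 0) d_H
      rw [PowerSeries.coeff_derivative, PowerSeries.coeff_C_mul] at h
      simp only [du, PowerSeries.coeff_mk, h0, derivative_one, mul_zero] at h
      simpa using h
    | succ n ih =>
      have h := congrArg (PowerSeries.coeff (n + 1)) d_H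
      rw [PowerSeries.coeff_derivative, PowerSeries.coeff_C_mul] at h
      simp only [du, PowerSeries.coeff_mk, ih, derivative_zero, mul_zero] at h
      have hne : (((n + 1 : ℕ) : ℚ[X]) + 1) ≠ 0 := by
        have : (((n + 1 : ℕ) : ℚ[X]) + 1) = ((n + 2 : ℕ) : ℚ[X]) := by push_cast; ring
        rw [this]
        exact_mod_cast (by omega : n + 2 ≠ 0)
      exact (mul_eq_zero.1 h).resolve_right hne
  ext1 n
  rcases Nat.eq_zero_or_pos n with h | h
  · subst h; rw [h0]; simp
  · obtain ⟨m, rfl⟩ : ∃ m, n = m + 1 := ⟨n - 1, by omega⟩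
    rw [hs m, PowerSeries.coeff_one]
    simp

/-- apply the functional to the coefficients -/
noncomputable def L (f : PowerSeries ℚ[X]) : PowerSeries ℚ :=
  PowerSeries.mk fun n => II (PowerSeries.coeff n f)

theorem L_add (f g : PowerSeries ℚ[X]) : L (f + g) = L f + L g := by
  ext1 n
  simp [L]

theorem L_mul (s : PowerSeries ℚ) (f : PowerSeries ℚ[X]) :
    L (PowerSeries.map (algebraMap ℚ ℚ[X]) s * f) = s * L f := by
  ext1 n
  simp only [L, PowerSeries.coeff_mk, PowerSeries.coeff_mul, PowerSeries.coeff_map, map_sum]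
  refine Finset.sum_congr rfl fun p _ => ?_
  rw [← Polynomial.C_eq_algebraMap, ← smul_eq_C_mul, map_smul, smul_eq_mul]

theorem map_ch : PowerSeries.map (algebraMap ℚ ℚ[X]) (chS ℚ) = chS ℚ[X] := by
  ext1 n
  simp only [chS, PowerSeries.coeff_map, PowerSeries.coeff_mk]
  split_ifs <;> simp

theorem map_sh : PowerSeries.map (algebraMap ℚ ℚ[X]) (shS ℚ) = shS ℚ[X] := by
  ext1 n
  simp only [shS, PowerSeries.coeff_map, PowerSeries.coeff_mk]
  split_ifs <;> simp

/-- the exponential generating function of `½ ∫ F_n` -/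
noncomputable def J : PowerSeries ℚ := L G

theorem d_J : PowerSeries.derivative ℚ J = L (PowerSeries.C X * G) := by
  ext1 n
  rw [PowerSeries.coeff_derivative]
  simp only [J, L, PowerSeries.coeff_mk, PowerSeries.coeff_C_mul]
  simp only [G, PowerSeries.coeff_mk]
  rw [mul_left_comm X (C _) (F n), ← smul_eq_C_mul, ← smul_eq_C_mul, map_smul, map_smul, F_succ,
    II_T, smul_eq_mul, smul_eq_mul, mul_right_comm, fact_succ_inv]

theorem sinh_mul_J : shS ℚ * J = PowerSeries.X := by
  have h1 : L H = 1 := by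
    rw [H_eq_one]
    ext1 n
    simp only [L, PowerSeries.coeff_mk, PowerSeries.coeff_one]
    split_ifs with h
    · have := II_X_pow 0
      rw [pow_zero] at this
      rw [this]
      simp [wt]
    · simp
  have h2 : L H = chS ℚ * J + shS ℚ * L (PowerSeries.C X * G) := by
    have e : H = PowerSeries.map (algebraMap ℚ ℚ[X]) (chS ℚ) * G +
        PowerSeries.map (algebraMap ℚ ℚ[X]) (shS ℚ) * (PowerSeries.C X * G) := by
      rw [map_ch, map_sh]; unfold H; ring
    rw [e, L_add, L_mul, L_mul]
    rfl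
  apply PowerSeries.derivative.ext
  · rw [Derivation.leibniz, d_J, d_shS, PowerSeries.derivative_X, smul_eq_mul, smul_eq_mul,
      ← h1, h2]
    ring
  · simp [shS]

/-! ### Parity -/

theorem T_comp_neg (P : ℚ[X]) : T (P.comp (-X)) = -(T P).comp (-X) := by
  unfold T
  simp only [derivative_comp, sub_comp, mul_comp, pow_comp, X_comp, one_comp, derivative_neg,
    derivative_X]
  ring

theorem II_comp_neg (P : ℚ[X]) : II (P.comp (-X)) = II P := by
  induction P using Polynomial.induction_on' with
  | add P Q hP hQ => rw [add_comp, map_add, hP, hQ, map_add]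
  | monomial n a =>
    rw [← C_mul_X_pow_eq_monomial, mul_comp, C_comp, pow_comp, X_comp, neg_pow]
    have e : (-1 : ℚ[X]) ^ n * X ^ n = ((-1 : ℚ) ^ n) • (X ^ n : ℚ[X]) := by
      rw [smul_eq_C_mul, map_pow, map_neg, map_one]
    rw [e, ← smul_eq_C_mul, ← smul_eq_C_mul, map_smul, map_smul, map_smul, II_X_pow]
    unfold wt
    split_ifs with h
    · rw [h.neg_one_pow, one_smul]
    · simp

theorem F_comp_neg (n : ℕ) : (F n).comp (-X) = C ((-1 : ℚ) ^ n) * F n := by
  induction n with
  | zero => simp [F]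
  | succ n ih =>
    have h := T_comp_neg (F n)
    rw [ih, T_C_mul] at h
    rw [F_succ]
    have h2 : (T (F n)).comp (-X) = -(C ((-1 : ℚ) ^ n) * T (F n)) := by rw [h, neg_neg]
    rw [h2, pow_succ, map_mul, map_neg, map_one]
    ring

theorem II_F_odd {n : ℕ} (hn : ¬ Even n) : II (F n) = 0 := by
  have h := II_comp_neg (F n)
  rw [F_comp_neg, ← smul_eq_C_mul, map_smul, (Nat.not_even_iff_odd.1 hn).neg_one_pow] at h
  simp at h
  linarith

/-! ### The algebra -/

/-- linear extension from monomials -/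
noncomputable def lin {M : Type} [AddCommMonoid M] [Module ℚ M] (v : ℕ × ℤ × ℕ → M) : A →ₗ[ℚ] M :=
  (Finsupp.linearCombination ℚ v).comp (AddMonoidAlgebra.coeffLinearEquiv ℚ).toLinearMap

theorem lin_mono {M : Type} [AddCommMonoid M] [Module ℚ M] (v : ℕ × ℤ × ℕ → M) (j : ℕ) (i : ℤ)
    (k : ℕ) : lin v (mono j i k) = v (j, i, k) := by
  simp [lin, mono, Finsupp.linearCombination_single]

theorem D_eq (f : A) : D f = lin Dmono f := rfl

theorem reduce_eq (f : A) : reduce f = lin (fun m => R m.1 m.2.2 (m.2.2 + 2)) f := rfl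

theorem mono_mul (j j' : ℕ) (i i' : ℤ) (k k' : ℕ) :
    mono j i k * mono j' i' k' = mono (j + j') (i + i') (k + k') := by
  unfold mono
  rw [AddMonoidAlgebra.single_mul_single]
  simp

theorem Dmono_mul (j j' : ℕ) (i i' : ℤ) (k k' : ℕ) :
    Dmono (j + j', i + i', k + k') =
      mono j i k * Dmono (j', i', k') + mono j' i' k' * Dmono (j, i, k) := by
  unfold Dmono
  simp only [mul_add, mul_smul_comm, mono_mul]
  have hz : (((j + j' : ℕ) : ℚ)) • mono (j + j' - 1) (i + i') (k + k') =
      (j' : ℚ) • mono (j + (j' - 1)) (i + i') (k + k') +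
      (j : ℚ) • mono (j' + (j - 1)) (i' + i) (k' + k) := by
    rcases Nat.eq_zero_or_pos j with h | h
    · subst h; simp
    · rcases Nat.eq_zero_or_pos j' with h' | h'
      · subst h'
        simp only [Nat.cast_zero, zero_smul, zero_add, add_zero]
        rw [add_comm i' i, add_comm k' k]
      · rw [show j + (j' - 1) = j + j' - 1 by omega, show j' + (j - 1) = j + j' - 1 by omega,
          add_comm i' i, add_comm k' k, ← add_smul]
        congr 1
        push_cast
        ring
  have ha : (((i + i' : ℤ) : ℚ)) • mono (j + j') (i + i' - 1) (k + k' + 1) =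
      (i' : ℚ) • mono (j + j') (i + (i' - 1)) (k + (k' + 1)) +
      (i : ℚ) • mono (j' + j) (i' + (i - 1)) (k' + (k + 1)) := by
    rw [show i + (i' - 1) = i + i' - 1 by ring, show i' + (i - 1) = i + i' - 1 by ring,
      show j' + j = j + j' by ring, show k' + (k + 1) = k + k' + 1 by ring,
      show k + (k' + 1) = k + k' + 1 by ring, ← add_smul]
    congr 1
    push_cast
    ring
  have hb : (((k + k' : ℕ) : ℚ)) • mono (j + j' + 1) (i + i' + 1) (k + k' - 1) =
      (k' : ℚ) • mono (j + (j' + 1)) (i + (i' + 1)) (k + (k' - 1)) +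
      (k : ℚ) • mono (j' + (j + 1)) (i' + (i + 1)) (k' + (k - 1)) := by
    rw [show j + (j' + 1) = j + j' + 1 by ring, show j' + (j + 1) = j + j' + 1 by ring,
      show i + (i' + 1) = i + i' + 1 by ring, show i' + (i + 1) = i + i' + 1 by ring]
    rcases Nat.eq_zero_or_pos k with h | h
    · subst h; simp
    · rcases Nat.eq_zero_or_pos k' with h' | h'
      · subst h'; simp
      · rw [show k + (k' - 1) = k + k' - 1 by omega, show k' + (k - 1) = k + k' - 1 by omega,
          ← add_smul]
        congr 1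
        push_cast
        ring
  rw [hz, ha, hb]
  abel

theorem single_eq (m : ℕ × ℤ × ℕ) (q : ℚ) :
    (AddMonoidAlgebra.single m q : A) = q • mono m.1 m.2.1 m.2.2 := by
  unfold mono
  rw [AddMonoidAlgebra.smul_single, smul_eq_mul, mul_one]

theorem D_leibniz (f g : A) : lin Dmono (f * g) = f • lin Dmono g + g • lin Dmono f := by
  simp only [smul_eq_mul]
  induction f using AddMonoidAlgebra.induction_linear with
  | zero => simp
  | add f f' hf hf' => rw [add_mul, map_add, hf, hf', map_add]; ring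
  | single m q =>
    induction g using AddMonoidAlgebra.induction_linear with
    | zero => simp
    | add g g' hg hg' => rw [mul_add, map_add, hg, hg', map_add]; ring
    | single m' q' =>
      obtain ⟨j, i, k⟩ := m
      obtain ⟨j', i', k'⟩ := m'
      rw [single_eq, single_eq]
      simp only [smul_mul_smul_comm, mono_mul, map_smul, lin_mono, Dmono_mul, smul_add,
        mul_comm q' q]

/-- `D` as a derivation -/
noncomputable def DD : Derivation ℚ A A := Derivation.mk' (lin Dmono) D_leibniz

/-- leading part -/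
noncomputable def Phi (n : ℕ) : A →ₗ[ℚ] ℚ[X] :=
  lin fun m => if 2 * m.1 + m.2.2 = n then X ^ m.2.2 else 0

/-- the span of the monomials that occur -/
noncomputable def Sp (n : ℕ) : Submodule ℚ A :=
  Submodule.span ℚ {f | ∃ j k : ℕ, 2 * j + k ≤ n ∧ f = mono j (-((k : ℤ) + 1)) k}

theorem D_mem {n : ℕ} {f : A} (hf : f ∈ Sp n) :
    D f ∈ Sp (n + 1) ∧ Phi (n + 1) (D f) = T (Phi n f) := by
  have hsub : ∀ j k : ℕ, 2 * j + k ≤ n + 1 → mono j (-((k : ℤ) + 1)) k ∈ Sp (n + 1) :=
    fun j k h => Submodule.subset_span ⟨j, k, h, rfl⟩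
  simp only [D_eq]
  unfold Sp at hf
  induction hf using Submodule.span_induction with
  | mem f hf =>
    obtain ⟨j, k, hjk, rfl⟩ := hf
    rw [lin_mono]
    unfold Phi
    rw [lin_mono]
    unfold Dmono
    simp only
    constructor
    · refine Submodule.add_mem _ (Submodule.add_mem _ ?_ ?_) ?_
      · exact Submodule.smul_mem _ _ (hsub (j - 1) k (by omega))
      · refine Submodule.smul_mem _ _ ?_
        have := hsub j (k + 1) (by omega)
        push_cast at this
        rwa [show -((k : ℤ) + 1) - 1 = -((k : ℤ) + 1 + 1) by ring]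
      · rcases Nat.eq_zero_or_pos k with h | h
        · subst h; simp
        · obtain ⟨l, rfl⟩ : ∃ l, k = l + 1 := ⟨k - 1, by omega⟩
          refine Submodule.smul_mem _ _ ?_
          have := hsub (j + 1) l (by omega)
          push_cast
          rwa [show -((l : ℤ) + 1 + 1) + 1 = -((l : ℤ) + 1) by ring]
    · rw [map_add, map_add, map_smul, map_smul, map_smul, lin_mono, lin_mono, lin_mono]
      simp only
      by_cases h : 2 * j + k = n
      · have e1 : ¬ (2 * (j - 1) + k = n + 1) := by omega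
        have e2 : 2 * j + (k + 1) = n + 1 := by omega
        rw [if_neg e1, if_pos e2, if_pos h, T_X_pow]
        rcases Nat.eq_zero_or_pos k with hk | hk
        · subst hk
          simp
        · have e3 : 2 * (j + 1) + (k - 1) = n + 1 := by omega
          rw [if_pos e3]
          simp only [smul_eq_C_mul, smul_zero, zero_add]
          push_cast
          simp only [map_neg, map_add, map_natCast, map_one]
          ring
      · have e1 : ¬ (2 * (j - 1) + k = n + 1) := by omega
        have e2 : ¬ (2 * j + (k + 1) = n + 1) := by omega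
        rw [if_neg e1, if_neg e2, if_neg h]
        have e3 : (k : ℚ) • (if 2 * (j + 1) + (k - 1) = n + 1 then (X : ℚ[X]) ^ (k - 1) else 0)
            = 0 := by
          rcases Nat.eq_zero_or_pos k with hk | hk
          · subst hk; simp
          · rw [if_neg (by omega)]; simp
        rw [e3]
        simp [T]
  | zero => simp [T]
  | add f g _ _ hf hg =>
    rw [map_add, map_add, map_add, T_add, hf.2, hg.2]
    exact ⟨Submodule.add_mem _ hf.1 hg.1, rfl⟩
  | smul q f _ hf =>
    rw [map_smul, map_smul, map_smul, T_smul, hf.2]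
    exact ⟨Submodule.smul_mem _ _ hf.1, rfl⟩

theorem iter_mem (n : ℕ) : D^[n] (mono 0 (-1) 0) ∈ Sp n ∧ Phi n (D^[n] (mono 0 (-1) 0)) = F n := by
  induction n with
  | zero =>
    constructor
    · exact Submodule.subset_span ⟨0, 0, le_rfl, by simp⟩
    · simp only [Function.iterate_zero, id, Phi, lin_mono, F]
      simp
  | succ n ih =>
    rw [Function.iterate_succ_apply', F_succ, ← ih.2]
    exact D_mem ih.1

theorem R_lead (m : ℕ) : ∀ k j : ℕ, 2 * j + k ≤ 2 * m →
    R j k (k + 2) (m, 0, 2) = if 2 * j + k = 2 * m then 1 / ((k : ℚ) + 1) else 0 := by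
  intro k
  induction k using Nat.strong_induction_on with
  | _ k ih =>
    intro j hj
    match k, ih, hj with
    | 0, _, hj =>
      unfold R
      by_cases h : j = m
      · subst h; simp
      · rw [Finsupp.single_eq_of_ne (by simp; tauto), if_neg (by omega)]
    | 1, _, hj =>
      unfold R
      rw [if_neg (by omega)]
      unfold R
      rw [Finsupp.smul_apply, Finsupp.single_eq_of_ne, smul_zero]
      simp
      omega
    | k + 2, ih, hj =>
      unfold R
      have h1 : R (j - 1) (k + 1) (k + 2 + 2 - 1) (m, 0, 2) * (j : ℚ) = 0 := by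
        rcases Nat.eq_zero_or_pos j with h | h
        · subst h; simp
        · have := ih (k + 1) (by omega) (j - 1) (by omega)
          rw [if_neg (by omega)] at this
          rw [show k + 2 + 2 - 1 = k + 1 + 2 by omega, this, zero_mul]
      have h2 := ih k (by omega) (j + 1) (by omega)
      rw [Finsupp.add_apply, Finsupp.smul_apply, Finsupp.smul_apply, smul_eq_mul, smul_eq_mul,
        show k + 2 + 2 - 2 = k + 2 by omega, h2]
      have e : ((j : ℚ) / (((k + 2 + 2 : ℕ) : ℚ) - 1)) * R (j - 1) (k + 1) (k + 2 + 2 - 1) (m, 0, 2)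
          = 0 := by
        rw [div_mul_eq_mul_div, mul_comm (j : ℚ), h1, zero_div]
      rw [e, zero_add]
      by_cases h3 : 2 * j + (k + 2) = 2 * m
      · rw [if_pos h3, if_pos (by omega)]
        have h4 : ((k : ℚ) + 1) ≠ 0 := by positivity
        have h5 : ((k : ℚ) + 2 + 1) ≠ 0 := by positivity
        push_cast
        have h6 : ((k : ℚ) + 2 + 2 - 1) ≠ 0 := by
          have : ((k : ℚ) + 2 + 2 - 1) = (k : ℚ) + 2 + 1 := by ring
          rw [this]; exact h5
        field_simp
        ring
      · rw [if_neg h3, if_neg (by omega), mul_zero]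

theorem reduce_lead (m : ℕ) {f : A} (hf : f ∈ Sp (2 * m)) :
    reduce (mono 0 (-1) 0 * f) (m, 0, 2) = II (Phi (2 * m) f) := by
  rw [reduce_eq]
  unfold Sp at hf
  induction hf using Submodule.span_induction with
  | mem f hf =>
    obtain ⟨j, k, hjk, rfl⟩ := hf
    rw [mono_mul, lin_mono]
    unfold Phi
    rw [lin_mono]
    simp only [zero_add]
    rw [R_lead m k j hjk]
    by_cases h : 2 * j + k = 2 * m
    · rw [if_pos h, if_pos h, II_X_pow]
      have hk : Even k := by
        rw [Nat.even_iff]; omega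
      unfold wt
      rw [if_pos hk]
    · rw [if_neg h, if_neg h, map_zero]
  | zero => simp
  | add f g _ _ hf hg => rw [mul_add, map_add, map_add, map_add, Finsupp.add_apply, hf, hg]
  | smul q f _ hf => rw [mul_smul_comm, map_smul, map_smul, map_smul, Finsupp.smul_apply, hf]

theorem bcoef_eq (m : ℕ) : bcoef (2 * m) m = II (F (2 * m)) := by
  unfold bcoef
  rw [reduce_lead m (iter_mem (2 * m)).1, (iter_mem (2 * m)).2]

/-- **`∑ b_{2m,m} x^{2m} / (2m)! = x / sinh x`.** The first part records that `D` is the derivation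
with `Dz = 1`, `Da = b`, `Db = za`. -/
theorem result :
    (∃ δ : Derivation ℚ A A, (∀ f, δ f = D f) ∧ δ (mono 1 0 0) = 1 ∧
      δ (mono 0 1 0) = mono 0 0 1 ∧ δ (mono 0 0 1) = mono 1 0 0 * mono 0 1 0) ∧
    (PowerSeries.mk fun n : ℕ => if Even n then bcoef n (n / 2) / (n.factorial : ℚ) else 0) *
      (PowerSeries.mk fun n : ℕ => if Even n then 0 else 1 / (n.factorial : ℚ)) =
      PowerSeries.X := by
  constructor
  · refine ⟨DD, fun f => rfl, ?_, ?_, ?_⟩
    · show lin Dmono (mono 1 0 0) = 1
      rw [lin_mono]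
      simp only [Dmono, Nat.cast_one, one_smul, Int.cast_zero, zero_smul, Nat.cast_zero, add_zero]
      rfl
    · show lin Dmono (mono 0 1 0) = mono 0 0 1
      rw [lin_mono]
      simp [Dmono]
    · show lin Dmono (mono 0 0 1) = mono 1 0 0 * mono 0 1 0
      rw [lin_mono, mono_mul]
      simp [Dmono]
  · have h1 : (PowerSeries.mk fun n : ℕ => if Even n then bcoef n (n / 2) / (n.factorial : ℚ)
        else 0) = J := by
      ext1 n
      simp only [J, L, G, PowerSeries.coeff_mk]
      rw [← smul_eq_C_mul, map_smul, smul_eq_mul]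
      by_cases h : Even n
      · rw [if_pos h]
        obtain ⟨m, rfl⟩ := h
        rw [← two_mul, show 2 * m / 2 = m by omega, bcoef_eq]
        ring
      · rw [if_neg h, II_F_odd h, mul_zero]
    have h2 : (PowerSeries.mk fun n : ℕ => if Even n then 0 else 1 / (n.factorial : ℚ)) = shS ℚ := by
      ext1 n
      simp [shS]
    rw [h1, h2, mul_comm]
    exact sinh_mul_J

end Pool.Agent.Results.MP_c1403d_pr.SinhSeries
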